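import Mathlib
import Pool.Agent.Lib.helper28.KME

namespace Pool.Agent.Results.MP_b76267_pr.Smaller

open MeasureTheory ProbabilityTheory Set Real Filter Topology Pool.Agent.H28KM
open scoped ENNReal NNReal ContDiff

/-- Gaussian surface area: the integral of the Gaussian density over the boundary with respect to
the normalised `(n-1)`-dimensional Hausdorff measure. -/
noncomputable def area {n : ℕ} (Ω : Set (EuclideanSpace ℝ (Fin n))) : ℝ≥0∞ :=
  ∫⁻ x in frontier Ω, ENNReal.ofReal (gam x) ∂μHE[n - 1]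

/-- The periodic half space with signs `ε`. -/
def halfSpace {n : ℕ} (ε : Fin n → ℝ) : Set (EuclideanSpace ℝ (Fin n)) :=
  {x | 0 ≤ sin (π * ∑ i, ε i * x i)}

/-- Periodic set: `Ω + v_i = Ωᶜ` exactly, and `-Ω = Ωᶜ` at every point off the boundary. -/
def IsPeriodic {n : ℕ} (Ω : Set (EuclideanSpace ℝ (Fin n))) : Prop :=
  (∀ i, (fun x => x + EuclideanSpace.single i 1) '' Ω = Ωᶜ) ∧
    ∀ x, x ∉ frontier Ω → (x ∈ -Ω ↔ x ∈ Ωᶜ)

/-- The boundary is locally the graph `y_i = h(other coordinates)` of a `C^∞` function. -/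
def SmoothBoundary {n : ℕ} (Ω : Set (EuclideanSpace ℝ (Fin n))) : Prop :=
  ∀ x ∈ frontier Ω, ∃ U : Set (EuclideanSpace ℝ (Fin n)), IsOpen U ∧ x ∈ U ∧
    ∃ (i : Fin n) (h : EuclideanSpace ℝ (Fin n) → ℝ), ContDiff ℝ ∞ h ∧
      (∀ (y : EuclideanSpace ℝ (Fin n)) (t : ℝ), h (y + EuclideanSpace.single i t) = h y) ∧
      frontier Ω ∩ U = {y | y ∈ U ∧ y i = h y}

noncomputable def ph (e a : ℝ) : ℝ := a - e * sin (2 * π * a)

noncomputable def FF (e : ℝ) (x : EuclideanSpace ℝ (Fin 5)) : ℝ :=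
  ph e (x 0) + x 1 + x 2 + x 3 + x 4

def Om (e : ℝ) : Set (EuclideanSpace ℝ (Fin 5)) := {x | Even ⌊FF e x⌋}

lemma FF_cont (e : ℝ) : Continuous (FF e) := by
  unfold FF ph; fun_prop

lemma ph_add_one (e a : ℝ) : ph e (a + 1) = ph e a + 1 := by
  unfold ph
  rw [mul_add, mul_one, sin_add_two_pi]; ring

lemma FF_shift (e : ℝ) (x : EuclideanSpace ℝ (Fin 5)) (i : Fin 5) :
    FF e (x + EuclideanSpace.single i 1) = FF e x + 1 := by
  fin_cases i <;> simp [FF, ph_add_one] <;> ring

lemma FF_move (e : ℝ) (x : EuclideanSpace ℝ (Fin 5)) (t : ℝ) :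
    FF e (x + EuclideanSpace.single 1 t) = FF e x + t := by
  simp [FF]; ring

lemma FF_neg (e : ℝ) (x : EuclideanSpace ℝ (Fin 5)) : FF e (-x) = -FF e x := by
  simp [FF, ph]; ring

lemma mem_closure_move {S : Set (EuclideanSpace ℝ (Fin 5))} (x : EuclideanSpace ℝ (Fin 5))
    (i : Fin 5) (c : ℝ) (h : ∀ t ∈ Ioo (0 : ℝ) 1, x + EuclideanSpace.single i (c * t) ∈ S) :
    x ∈ closure S := by
  have hc : Continuous fun t : ℝ => x + (c * t) • EuclideanSpace.single i (1 : ℝ) := by fun_prop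
  have ht := (hc.tendsto 0).mono_left (nhdsWithin_le_nhds (s := Ioi 0))
  simp only [mul_zero, zero_smul, add_zero] at ht
  refine mem_closure_of_tendsto ht ?_
  filter_upwards [Ioo_mem_nhdsGT zero_lt_one] with t h1
  have : (c * t) • EuclideanSpace.single i (1 : ℝ) = EuclideanSpace.single i (c * t) := by
    ext j; simp
  rw [this]
  exact h t h1

lemma frontier_Om (e : ℝ) : frontier (Om e) = {x | ∃ k : ℤ, FF e x = k} := by
  ext x
  simp only [mem_ofPred_eq]
  constructor
  · intro hx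
    by_contra hn
    have h1 : (⌊FF e x⌋ : ℝ) < FF e x :=
      lt_of_le_of_ne (Int.floor_le _) fun h => hn ⟨_, h.symm⟩
    have h2 := Int.lt_floor_add_one (FF e x)
    have hev : ∀ᶠ y in 𝓝 x, ⌊FF e y⌋ = ⌊FF e x⌋ := by
      filter_upwards [((FF_cont e).tendsto x).eventually (Ioo_mem_nhds h1 h2)] with y hy
      exact Int.floor_eq_iff.mpr ⟨hy.1.le, hy.2⟩
    by_cases hp : Even ⌊FF e x⌋
    · refine hx.2 (mem_interior_iff_mem_nhds.mpr ?_)
      filter_upwards [hev] with y hy
      simpa [Om, hy] using hp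
    · rw [← frontier_compl] at hx
      refine hx.2 (mem_interior_iff_mem_nhds.mpr ?_)
      filter_upwards [hev] with y hy
      simpa [Om, hy] using hp
  · rintro ⟨k, hk⟩
    have up : ∀ t ∈ Ioo (0 : ℝ) 1, ⌊FF e (x + EuclideanSpace.single 1 (1 * t))⌋ = k := by
      intro t ht
      rw [FF_move, hk, Int.floor_eq_iff]
      constructor <;> linarith [ht.1, ht.2]
    have dn : ∀ t ∈ Ioo (0 : ℝ) 1, ⌊FF e (x + EuclideanSpace.single 1 (-1 * t))⌋ = k - 1 := by
      intro t ht
      rw [FF_move, hk, Int.floor_eq_iff]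
      push_cast
      constructor <;> linarith [ht.1, ht.2]
    rw [frontier_eq_closure_inter_closure]
    by_cases hp : Even k
    · refine ⟨mem_closure_move x 1 1 fun t ht => ?_, mem_closure_move x 1 (-1) fun t ht => ?_⟩
      · simp only [Om, mem_ofPred_eq, up t ht, hp]
      · simp only [Om, mem_compl_iff, mem_ofPred_eq, dn t ht, Int.even_sub_one, hp,
          not_true_eq_false, not_false_eq_true]
    · refine ⟨mem_closure_move x 1 (-1) fun t ht => ?_, mem_closure_move x 1 1 fun t ht => ?_⟩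
      · simp only [Om, mem_ofPred_eq, dn t ht, Int.even_sub_one, hp, not_false_eq_true]
      · simp only [Om, mem_compl_iff, mem_ofPred_eq, up t ht, hp, not_false_eq_true]

lemma periodic_Om (e : ℝ) : IsPeriodic (Om e) := by
  refine ⟨fun i => ?_, fun x hx => ?_⟩
  · ext y
    simp only [mem_image, Om, mem_ofPred_eq, mem_compl_iff]
    constructor
    · rintro ⟨x, hx, rfl⟩
      rw [FF_shift, Int.floor_add_one, Int.even_add_one]
      simpa using hx
    · intro hy
      refine ⟨y - EuclideanSpace.single i 1, ?_, by simp⟩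
      have := FF_shift e (y - EuclideanSpace.single i 1) i
      rw [sub_add_cancel] at this
      rw [this, Int.floor_add_one, Int.even_add_one] at hy
      simpa using hy
  · rw [frontier_Om] at hx
    simp only [Set.mem_neg, Om, mem_ofPred_eq, mem_compl_iff, FF_neg]
    have : ⌊-FF e x⌋ = -⌊FF e x⌋ - 1 := by
      rw [Int.floor_eq_iff]
      have h1 : (⌊FF e x⌋ : ℝ) < FF e x :=
        lt_of_le_of_ne (Int.floor_le _) fun h => hx ⟨_, h.symm⟩
      have h2 := Int.lt_floor_add_one (FF e x)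
      push_cast
      constructor <;> linarith
    rw [this, Int.even_sub_one, even_neg]

lemma smooth_Om (e : ℝ) : SmoothBoundary (Om e) := by
  intro x hx
  rw [frontier_Om] at hx ⊢
  obtain ⟨k, hk⟩ := hx
  refine ⟨FF e ⁻¹' Ioo (k - 1) (k + 1), isOpen_Ioo.preimage (FF_cont e),
    by simp [hk], 1, fun y => k - ph e (y 0) - y 2 - y 3 - y 4, ?_, fun y t => by simp, ?_⟩
  · unfold ph
    fun_prop
  · ext y
    simp only [mem_inter_iff, mem_ofPred_eq, mem_preimage, mem_Ioo]
    constructor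
    · rintro ⟨⟨m, hm⟩, h1, h2⟩
      refine ⟨⟨h1, h2⟩, ?_⟩
      rw [hm] at h1 h2
      have h1' : k - 1 < m := by exact_mod_cast h1
      have h2' : m < k + 1 := by exact_mod_cast h2
      have : m = k := by omega
      rw [this, FF] at hm
      linarith
    · rintro ⟨h1, h2⟩
      refine ⟨⟨k, ?_⟩, h1⟩
      rw [FF]; linarith

lemma gd_half (x : ℝ) : gd 1 (x / 2) = 2 * gd 4 x := by
  unfold gd
  have : √(2 * π * 4) = 2 * √(2 * π * 1) := by
    rw [show 2 * π * 4 = 2 ^ 2 * (2 * π * 1) by ring, sqrt_mul (by norm_num), sqrt_sq (by norm_num)]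
  rw [this, show -(x / 2) ^ 2 / (2 * 1) = -x ^ 2 / (2 * 4) by ring, mul_inv]
  ring

lemma q_small : exp (-(2 * π ^ 2)) ≤ 1 / 10 := by
  have h1 : 9 ≤ 2 * π ^ 2 := by nlinarith [pi_gt_three]
  have h2 := add_one_le_exp (2 * π ^ 2)
  rw [exp_neg, one_div]
  exact inv_anti₀ (by norm_num) (by linarith)

lemma theta_half (t : ℝ) : ∃ S : ℝ, ∑' k : ℤ, ENNReal.ofReal (gd 1 ((k - t) / 2)) =
    ENNReal.ofReal (2 * S) ∧ |S - 1| ≤ 3 * exp (-(2 * π ^ 2)) ^ 4 := by
  have h := theta_bound (v := 4) (by norm_num) (-t)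
  have hq := q_small
  have hq0 := exp_pos (-(2 * π ^ 2))
  rw [show -(2 * π ^ 2 * 4) = (4 : ℕ) * -(2 * π ^ 2) by push_cast; ring, exp_nat_mul] at h
  set q := exp (-(2 * π ^ 2))
  have hq4 : q ^ 4 ≤ (1 / 10) ^ 4 := pow_le_pow_left₀ hq0.le hq 4
  have hq4' : 0 < q ^ 4 := by positivity
  have hb : 2 * q ^ 4 * (1 - q ^ 4)⁻¹ ≤ 3 * q ^ 4 := by
    rw [← div_eq_mul_inv, div_le_iff₀ (by linarith)]
    nlinarith
  have hs : Summable fun k : ℤ => gd 4 (-t + k) := by
    by_contra hn
    rw [tsum_eq_zero_of_not_summable hn] at h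
    norm_num at h hq4
    linarith
  refine ⟨_, ?_, h.trans hb⟩
  rw [← tsum_mul_left, ENNReal.ofReal_tsum_of_nonneg
    (fun k => mul_nonneg zero_le_two (gd_pos _ _ (by norm_num)).le) (hs.mul_left 2)]
  refine tsum_congr fun k => ?_
  rw [gd_half, show (k : ℝ) - t = -t + k by ring]

lemma lint_gd {f : ℝ → ℝ} (hf : Continuous f) (h0 : ∀ a, 0 ≤ f a) {C : ℝ} (hC : ∀ a, |f a| ≤ C) :
    ∫⁻ a, ENNReal.ofReal (f a * gd 1 a) = ENNReal.ofReal (∫ a, f a ∂gaussianReal 0 1) := by
  rw [integral_gaussianReal_eq_integral_smul one_ne_zero, ofReal_integral_eq_lintegral_ofReal]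
  · simp only [gd_one_eq, smul_eq_mul, mul_comm]
  · simp_rw [smul_eq_mul]
    exact (integrable_gaussianPDFReal 0 1).mul_bdd (c := C) hf.aestronglyMeasurable
      (Eventually.of_forall hC)
  · exact Eventually.of_forall fun a => mul_nonneg (gaussianPDFReal_nonneg _ _ _) (h0 a)

lemma int_cos : ∫ a, cos (2 * π * a) ∂gaussianReal 0 1 = exp (-(2 * π ^ 2)) := by
  have hi : Integrable (fun x : ℝ => Complex.exp ((2 * π * x : ℝ) * Complex.I))
      (gaussianReal 0 1) :=
    Integrable.of_bound (Continuous.aestronglyMeasurable (by fun_prop)) 1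
      (Eventually.of_forall fun x => (Complex.norm_exp_ofReal_mul_I _).le)
  have := Complex.reCLM.integral_comp_comm hi
  simp only [Complex.reCLM_apply, Complex.exp_ofReal_mul_I_re] at this
  rw [this, int_cexp, Complex.ofReal_re]
  congr 1; ring

lemma len_le {q : ℝ} (hq : q = exp (-(2 * π ^ 2))) :
    ∫⁻ a, ENNReal.ofReal (√(1 + (1 - q * cos (2 * π * a)) ^ 2 / 4) * gd 1 a) ≤
      ENNReal.ofReal (√5 / 2 * (1 - q ^ 2 / 10)) := by
  have h5 : √5 ^ 2 = 5 := sq_sqrt (by norm_num)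
  have h5p : 0 < √5 := by positivity
  set f : ℝ → ℝ := fun a => √5 / 2 * (1 + q ^ 2 / 10) - √5 * q / 10 * cos (2 * π * a) with hf
  have hle : ∀ a, √(1 + (1 - q * cos (2 * π * a)) ^ 2 / 4) ≤ f a := by
    intro a
    have hc := cos_sq_le_one (2 * π * a)
    set c := cos (2 * π * a)
    have hX : 0 ≤ 1 + (1 - q * c) ^ 2 / 4 := by positivity
    have e := sq_sqrt hX
    set r := √(1 + (1 - q * c) ^ 2 / 4)
    have h1 : √5 * r ≤ r ^ 2 + 5 / 4 := by nlinarith [sq_nonneg (r - √5 / 2)]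
    have h2 : r ^ 2 + 5 / 4 ≤ √5 * f a := by
      have : √5 * f a = 5 / 2 * (1 + q ^ 2 / 10) - q / 2 * c := by
        simp only [hf]
        linear_combination ((1 + q ^ 2 / 10) / 2 - q / 10 * c) * h5
      rw [this, e]
      nlinarith [mul_le_mul_of_nonneg_left hc (sq_nonneg q)]
    exact le_of_mul_le_mul_left (h1.trans h2) h5p
  have cf : Continuous f := by fun_prop
  have hb : ∀ a, |f a| ≤ |√5 / 2 * (1 + q ^ 2 / 10)| + |√5 * q / 10| := by
    intro a
    refine (abs_sub _ _).trans ?_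
    rw [abs_mul (√5 * q / 10)]
    nlinarith [abs_cos_le_one (2 * π * a), abs_nonneg (√5 * q / 10)]
  calc _ ≤ ∫⁻ a, ENNReal.ofReal (f a * gd 1 a) :=
        lintegral_mono fun a => ENNReal.ofReal_le_ofReal
          (mul_le_mul_of_nonneg_right (hle a) (gd_pos _ _ one_pos).le)
    _ = _ := by
      rw [lint_gd cf (fun a => (sqrt_nonneg _).trans (hle a)) hb]
      congr 1
      have ic : Integrable (fun a => cos (2 * π * a)) (gaussianReal 0 1) :=
        integrable_of_bdd _ (by fun_prop) fun a => abs_cos_le_one _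
      simp only [hf]
      rw [integral_sub (integrable_const _) (ic.const_mul _), integral_const_mul,
        integral_const_mul, int_cos, ← hq]
      simp only [integral_const, probReal_univ, smul_eq_mul]
      ring

lemma area_Om {q : ℝ} (hq : q = exp (-(2 * π ^ 2))) : area (Om (q / (2 * π))) ≤
    ENNReal.ofReal (√5 / 2 * (1 - q ^ 2 / 10)) * ENNReal.ofReal (2 * (1 + 3 * q ^ 4)) := by
  have hd : ∀ a, HasDerivAt (ph (q / (2 * π))) (1 - q * cos (2 * π * a)) a := by
    intro a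
    have := (hasDerivAt_id a).sub
      ((((hasDerivAt_id a).const_mul (2 * π)).sin).const_mul (q / (2 * π)))
    refine this.congr_deriv ?_
    simp only [id]
    field_simp
  have cφ : Continuous (ph (q / (2 * π))) := by unfold ph; fun_prop
  have hc := gd_cont 1
  have e : frontier (Om (q / (2 * π))) = ⋃ k : ℤ, {x : EuclideanSpace ℝ (Fin 5) |
      ph (q / (2 * π)) (x 0) + x 1 + x 2 + x 3 + x 4 = (k : ℝ)} := by
    rw [frontier_Om]; ext x; simp [FF]
  change ∫⁻ x in frontier _, ENNReal.ofReal (gam x) ∂μHE[4] ≤ _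
  rw [e]
  refine (lintegral_iUnion_le _ _).trans
    ((ENNReal.tsum_le_tsum fun k : ℤ => surf_le hd (by fun_prop) (k : ℝ)).trans ?_)
  rw [← lintegral_tsum fun k => Measurable.aemeasurable (by fun_prop)]
  refine le_trans ?_ (mul_le_mul_left (len_le hq) _)
  rw [← lintegral_mul_const _ (by fun_prop)]
  refine lintegral_mono fun a => ?_
  rw [ENNReal.tsum_mul_left]
  obtain ⟨S, h1, h2⟩ := theta_half (ph (q / (2 * π)) a)
  rw [h1]
  rw [← hq] at h2
  gcongr
  linarith [(abs_le.mp h2).2]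

lemma area_half {q : ℝ} (hq : q = exp (-(2 * π ^ 2))) :
    ENNReal.ofReal (√5 / 2) * ENNReal.ofReal (2 * (1 - 3 * q ^ 4)) ≤
      area (halfSpace fun _ : Fin 5 => (1 : ℝ)) := by
  have hc := gd_cont 1
  have e : (⋃ k : ℤ, {x : EuclideanSpace ℝ (Fin 5) | x 0 + x 1 + x 2 + x 3 + x 4 = (k : ℝ)}) ⊆
      frontier (halfSpace fun _ : Fin 5 => (1 : ℝ)) := by
    intro x hx
    obtain ⟨k, hk⟩ := mem_iUnion.mp hx
    simp only [mem_ofPred_eq] at hk
    rw [frontier_eq_closure_inter_closure]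
    have hs : ∀ s : ℝ, sin (π * ∑ i, 1 *
        (x + EuclideanSpace.single 1 s : EuclideanSpace ℝ (Fin 5)) i) =
        (-1) ^ k * sin (π * s) := by
      intro s
      rw [← sin_add_int_mul_pi]
      congr 1
      simp [Fin.sum_univ_five]
      linear_combination π * hk
    refine ⟨subset_closure ?_, mem_closure_move x 1 (-(-1) ^ k) fun t ht => ?_⟩
    · have := hs 0
      have z : (EuclideanSpace.single 1 0 : EuclideanSpace ℝ (Fin 5)) = 0 := by ext j; simp
      simp only [z, add_zero, mul_zero, sin_zero] at this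
      simp only [halfSpace, mem_ofPred_eq, this, le_refl]
    · simp only [halfSpace, mem_compl_iff, mem_ofPred_eq, hs, not_le]
      have hp : 0 < sin (π * t) :=
        sin_pos_of_pos_of_lt_pi (mul_pos pi_pos ht.1) (by nlinarith [pi_pos, ht.2])
      rcases Int.even_or_odd k with h | h
      · rw [h.neg_one_zpow]; simpa using hp
      · rw [h.neg_one_zpow]; simpa using hp
  change _ ≤ ∫⁻ x in frontier _, ENNReal.ofReal (gam x) ∂μHE[4]
  refine le_trans ?_ (lintegral_mono_set e)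
  rw [lintegral_iUnion (fun k => (isClosed_eq (by fun_prop) continuous_const).measurableSet)]
  · simp_rw [plane_eq]
    rw [← lintegral_tsum fun k => Measurable.aemeasurable (by fun_prop)]
    have h1 : ∫⁻ a, ENNReal.ofReal (√5 / 2 * gd 1 a) = ENNReal.ofReal (√5 / 2) := by
      rw [lint_gd (f := fun _ => √5 / 2) continuous_const (fun _ => by positivity)
        (fun _ => le_rfl)]
      simp
    rw [← h1, ← lintegral_mul_const _ (by fun_prop)]
    refine lintegral_mono fun a => ?_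
    rw [ENNReal.tsum_mul_left]
    obtain ⟨S, h1, h2⟩ := theta_half a
    rw [h1]
    rw [← hq] at h2
    gcongr
    linarith [(abs_le.mp h2).1]
  · intro k m hkm
    simp only [Function.onFun, disjoint_left, mem_ofPred_eq]
    intro x h1 h2
    exact hkm (by exact_mod_cast h1.symm.trans h2)

theorem result : ∃ n : ℕ, 1 ≤ n ∧ ∃ Ω : Set (EuclideanSpace ℝ (Fin n)),
    IsPeriodic Ω ∧ SmoothBoundary Ω ∧
      ∃ ε : Fin n → ℝ, (∀ i, ε i = 1 ∨ ε i = -1) ∧ area Ω < area (halfSpace ε) := by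
  set q := exp (-(2 * π ^ 2)) with hq
  refine ⟨5, by norm_num, Om (q / (2 * π)), periodic_Om _, smooth_Om _, fun _ => 1,
    fun _ => Or.inl rfl, (area_Om hq).trans_lt (lt_of_lt_of_le ?_ (area_half hq))⟩
  have h1 : q ≤ 1 / 10 := q_small
  have h0 : 0 < q := exp_pos _
  have h5p : 0 < √5 := by positivity
  have hq2 : q ^ 2 ≤ 1 / 100 := by nlinarith
  have hq2' : 0 < q ^ 2 := by positivity
  have hq4 : q ^ 4 = q ^ 2 * q ^ 2 := by ring
  rw [← ENNReal.ofReal_mul (by nlinarith), ← ENNReal.ofReal_mul (by positivity),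
    ENNReal.ofReal_lt_ofReal_iff (by
      have : 0 < 1 - 3 * q ^ 4 := by nlinarith
      positivity)]
  have : (1 - q ^ 2 / 10) * (1 + 3 * q ^ 4) < 1 - 3 * q ^ 4 := by
    rw [hq4]
    nlinarith [mul_pos hq2' hq2', mul_pos hq2' (mul_pos hq2' hq2')]
  nlinarith

end Pool.Agent.Results.MP_b76267_pr.Smaller
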